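import Mathlib
import Pool.Agent.H.MP_32f877_an.Vol
set_option autoImplicit false
namespace Pool.Agent.Results.MP_32f877_an.Exists

/-- Volume of the tetrahedron with vertices `x 0, x 1, x 2, x 3`:
`|det (x 1 - x 0, x 2 - x 0, x 3 - x 0)| / 6`. -/
noncomputable def vol (x : Fin 4 → EuclideanSpace ℝ (Fin 3)) : ℝ :=
  |Matrix.det (Matrix.of fun r k : Fin 3 => (x r.succ - x 0) k)| / 6

/-- `q` solves Newton's four-body equations (gravitational constant 1) with masses `m` for all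
`t ≥ 0`: velocities `p`, accelerations `a`, and
`m i • a i = ∑ j ≠ i, m i m j (q j - q i) / |q j - q i|^3`. -/
def IsSol (m : Fin 4 → ℝ) (q : ℝ → Fin 4 → EuclideanSpace ℝ (Fin 3)) : Prop :=
  ∃ p a : ℝ → Fin 4 → EuclideanSpace ℝ (Fin 3), ∀ t, 0 ≤ t → ∀ i,
    HasDerivAt (fun s => q s i) (p t i) t ∧ HasDerivAt (fun s => p s i) (a t i) t ∧
    m i • a t i = ∑ j ∈ Finset.univ.erase i, (m i * m j / ‖q t j - q t i‖ ^ 3) • (q t j - q t i)

theorem result : ∃ m : Fin 4 → ℝ, (∀ i, 0 < m i) ∧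
    ∃ q : ℝ → Fin 4 → EuclideanSpace ℝ (Fin 3), IsSol m q ∧
      (∀ t, 0 ≤ t → ∀ i j, i ≠ j → q t i ≠ q t j) ∧
      ∃ c C : ℝ, 0 < c ∧ c ≤ C ∧ ∀ t, 0 ≤ t → c ≤ vol (q t) ∧ vol (q t) ≤ C := by
  obtain ⟨q, p, h⟩ := Pool.Agent.H.Hyp4.exists_q
  have h' := fun t (ht : 0 ≤ t) => h (t + 10 ^ 8) (by linarith)
  refine ⟨fun _ => 1, fun _ => one_pos, fun t => q (t + 10 ^ 8),
    ⟨fun t => p (t + 10 ^ 8), fun t => Pool.Agent.H.Hyp4.F (q (t + 10 ^ 8)), fun t ht i => ?_⟩,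
    fun t ht i j hij e => ?_, 900, 1800, by norm_num, by norm_num, fun t ht => ?_⟩
  · obtain ⟨h1, h2, -, -⟩ := h' t ht
    refine ⟨(hasDerivAt_pi.1 (h1.comp_add_const t _)) i,
      (hasDerivAt_pi.1 (h2.comp_add_const t _)) i, ?_⟩
    simp [Pool.Agent.H.Hyp4.F, Pool.Agent.H.Hyp4.kf]
  · have := (h' t ht).2.2.1 j i hij
    have e' : q (t + 10 ^ 8) i = q (t + 10 ^ 8) j := e
    rw [e', sub_self, norm_zero] at this
    linarith
  · have key : ∀ D : ℝ, |D - 8000| ≤ 2528 → 900 ≤ |D| / 6 ∧ |D| / 6 ≤ 1800 := by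
      intro D hD
      rw [abs_le] at hD
      rw [abs_of_pos (by linarith [hD.1])]
      constructor <;> linarith [hD.1, hD.2]
    exact key _ (h' t ht).2.2.2

end Pool.Agent.Results.MP_32f877_an.Exists
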